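import Pool.Agent.N889.WU.Stm

/-!
MEAS: a field which is finite over `k(t)` is finite over `k(b)` for every transcendental `b`,
and its degree over `k(b ^ p)` is larger than its degree over `k(b)`.
-/

set_option autoImplicit false

open Polynomial IntermediateField

namespace Pool.Agent.N457.WU

universe u

/-- A field which is finite over `k(t)` is finite over `k(b)`, `b` transcendental. -/
theorem fin_of_transc {k L : Type u} [Field k] [Field L] [Algebra k L] {t : L}
    (ht : Transcendental k t) (hfin : FiniteDimensional k⟮t⟯ L) {b : L}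
    (hb : Transcendental k b) : FiniteDimensional k⟮b⟯ L := by
  have halg : IsAlgebraic k⟮b⟯ t :=
    isAlgebraic_adjoin_iff.mpr (.adjoin_singleton ht hb
      (isAlgebraic_adjoin_iff.mp (Algebra.IsAlgebraic.isAlgebraic b)))
  let Fyx := restrictScalars k k⟮b⟯⟮t⟯
  let Fxy := restrictScalars k k⟮t⟯⟮b⟯
  let : Algebra k⟮b⟯ Fyx := k⟮b⟯⟮t⟯.algebra
  let : Module k⟮b⟯ Fyx := Algebra.toModule
  let : SMul k⟮b⟯ Fyx := Algebra.toSMul
  let : Algebra k⟮t⟯ Fxy := k⟮t⟯⟮b⟯.algebra
  let : Module k⟮t⟯ Fxy := Algebra.toModule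
  let : SMul k⟮t⟯ Fxy := Algebra.toSMul
  have : FiniteDimensional k⟮b⟯ Fyx :=
    adjoin.finiteDimensional (isAlgebraic_iff_isIntegral.mp halg)
  have : FiniteDimensional Fyx L := by
    unfold Fyx
    rw [adjoin_simple_comm]
    have : IsScalarTower k⟮t⟯ Fxy L := isScalarTower_mid' k⟮t⟯⟮b⟯
    exact .right k⟮t⟯ Fxy L
  have : IsScalarTower k⟮b⟯ Fyx L := isScalarTower_mid' k⟮b⟯⟮t⟯
  exact .trans k⟮b⟯ Fyx L

/-- `b` is not a rational function of `b ^ p`. -/
theorem not_mem_pow {k L : Type u} [Field k] [Field L] [Algebra k L] {b : L}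
    (hb : Transcendental k b) {p : ℕ} (hp : 2 ≤ p) : b ∉ k⟮b ^ p⟯ := by
  intro hmem
  rw [IntermediateField.mem_adjoin_simple_iff] at hmem
  obtain ⟨r, s, hrs⟩ := hmem
  have hb0 : b ≠ 0 := fun h => hb (h ▸ isAlgebraic_zero)
  have hs0 : aeval (b ^ p) s ≠ 0 := by
    intro h
    rw [h, div_zero] at hrs
    exact hb0 hrs
  have hs : s ≠ 0 := fun h => hs0 (by rw [h, map_zero])
  have h1 : b * aeval (b ^ p) s = aeval (b ^ p) r := by
    rw [eq_div_iff hs0] at hrs
    exact hrs
  have h2 : X * expand k p s = expand k p r := by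
    rw [transcendental_iff_injective] at hb
    apply hb
    rw [map_mul, aeval_X, expand_aeval, expand_aeval]
    exact h1
  have h3 : (X * expand k p s).natDegree = s.natDegree * p + 1 := by
    rw [natDegree_X_mul ((expand_ne_zero (by omega)).mpr hs), natDegree_expand]
  have h4 : s.natDegree * p + 1 = r.natDegree * p := by
    rw [← h3, h2, natDegree_expand]
  have h5 : p ∣ 1 := by
    have h6 : p ∣ s.natDegree * p + 1 := h4 ▸ Dvd.intro_left _ rfl
    exact (Nat.dvd_add_right (Dvd.intro_left _ rfl)).mp h6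
  have := Nat.le_of_dvd one_pos h5
  omega

/-- MEAS -/
theorem t_MEAS : Pool.Agent.N889.WU.S_MEAS.{u} := by
  intro p hp k L _ _ _ t ht hfin b hb
  have hp2 : 2 ≤ p := hp.out.two_le
  have hbp : Transcendental k (b ^ p) := hb.pow (by omega)
  have hfb := fin_of_transc ht hfin hb
  have hfp := fin_of_transc ht hfin hbp
  refine ⟨Module.finrank_pos, ?_⟩
  have hle : k⟮b ^ p⟯ ≤ k⟮b⟯ := by
    rw [IntermediateField.adjoin_le_iff]
    intro y hy
    rw [Set.mem_singleton_iff] at hy
    rw [hy]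
    exact pow_mem (IntermediateField.mem_adjoin_simple_self k b) p
  have h1 := IntermediateField.relfinrank_mul_finrank_top hle
  have h2 : IntermediateField.relfinrank k⟮b ^ p⟯ k⟮b⟯ ≠ 1 := by
    intro h
    rw [IntermediateField.relfinrank_eq_one_iff] at h
    exact not_mem_pow hb hp2 (h (IntermediateField.mem_adjoin_simple_self k b))
  have h3 : 0 < Module.finrank k⟮b ^ p⟯ L := Module.finrank_pos
  have h4 : 0 < Module.finrank k⟮b⟯ L := Module.finrank_pos
  have h5 : IntermediateField.relfinrank k⟮b ^ p⟯ k⟮b⟯ ≠ 0 := by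
    intro h
    rw [h, zero_mul] at h1
    omega
  have h7 : 2 ≤ IntermediateField.relfinrank k⟮b ^ p⟯ k⟮b⟯ := by omega
  rw [← h1]
  nlinarith

end Pool.Agent.N457.WU
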